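import Pool.Agent.Helper5.LCU.Stmts

set_option autoImplicit false

open Finset Pool.Agent.Helper89.UB

namespace Pool.Agent.Helper1.LCU

open Pool.Agent.Helper5.LCU

theorem mg_aux (hGD : ST_GD) (hMG1 : ST_MG1) (hZB : ST_ZB) (n : ℕ)
    (E : Finset (Finset (Fin n))) (A B : Finset (Fin n)) (hAl : Al E ∅)
    (hcl : Clique E (A ∩ B)) (hE : ∀ e ∈ E, e ⊆ A ∪ B → e ⊆ A ∨ e ⊆ B)
    (t w : ℕ) (hAK : ∃ K ⊆ A, Clique E K ∧ K.card = t)
    (hAm : ∀ K ⊆ A, Clique E K → K.card ≤ t) (hA : SLC (sq E A t))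
    (hBK : ∃ K ⊆ B, Clique E K ∧ K.card = w)
    (hBm : ∀ K ⊆ B, Clique E K → K.card ≤ w) (hB : SLC (sq E B w)) (htw : t ≤ w) :
    Good E (A ∪ B) := by
  rw [hGD]
  refine ⟨w, ?_, ?_, ?_⟩
  · obtain ⟨K, hK, hKc, hKw⟩ := hBK
    exact ⟨K, hK.trans subset_union_right, hKc, hKw⟩
  · intro K hK hKc
    by_cases h1 : K ⊆ A
    · exact (hAm K h1 hKc).trans htw
    · by_cases h2 : K ⊆ B
      · exact hBm K h2 hKc
      · exfalso
        rw [not_subset] at h1 h2
        obtain ⟨u, huK, huA⟩ := h1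
        obtain ⟨v, hvK, hvB⟩ := h2
        have huB : u ∈ B := by
          rcases mem_union.1 (hK huK) with h | h
          · exact absurd h huA
          · exact h
        have huv : u ≠ v := fun h => hvB (h ▸ huB)
        have he := hKc u huK v hvK huv
        have hsub : ({u, v} : Finset (Fin n)) ⊆ A ∪ B := by
          intro x hx
          rw [mem_insert, mem_singleton] at hx
          rcases hx with rfl | rfl
          · exact hK huK
          · exact hK hvK
        rcases hE _ he hsub with h | h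
        · exact huA (h (by simp))
        · exact hvB (h (by simp))
  · obtain ⟨KA, hKA, hKAc, hKAt⟩ := hAK
    obtain ⟨KB, hKB, hKBc, hKBw⟩ := hBK
    refine hMG1 n E A B (A ∩ B).card t w hAl hcl hE rfl (hAm _ inter_subset_left hcl) htw ?_ ?_ ?_
      hA hB
    · intro m hm
      exact hZB n E A KA hKA hKAc m (by omega)
    · intro m hm
      exact hZB n E B KB hKB hKBc m (by omega)
    · intro m hm
      exact hZB n E (A ∪ B) KB (hKB.trans subset_union_right) hKBc m (by omega)

theorem st_MG (hGD : ST_GD) (hMG1 : ST_MG1) (hZB : ST_ZB) : ST_MG := by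
  intro n E A B hAl hcl hE hA hB
  have hA' := (hGD n E A).1 hA
  have hB' := (hGD n E B).1 hB
  obtain ⟨t, h1, h2, h3⟩ := hA'
  obtain ⟨w, k1, k2, k3⟩ := hB'
  rcases le_total t w with htw | htw
  · exact mg_aux hGD hMG1 hZB n E A B hAl hcl hE t w h1 h2 h3 k1 k2 k3 htw
  · rw [union_comm]
    refine mg_aux hGD hMG1 hZB n E B A hAl (by rwa [inter_comm]) ?_ w t k1 k2 k3 h1 h2 h3 htw
    intro e he hs
    rw [union_comm] at hs
    exact (hE e he hs).symm

end Pool.Agent.Helper1.LCU
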